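import Pool.Agent.K1H35.SH.Stm

/-!
Piece REC of the project SH (MP_0fd30f_pr).
-/

namespace Pool.Agent.K1H87.SH

open Pool.Agent.K1H35.SH

/-- common neighbourhoods in two graphs, isomorphic -/
def Com2 {V W : Type} (G : SimpleGraph V) (u v : V) (H : SimpleGraph W) (u' v' : W) : Prop :=
  ∃ f : {x // G.Adj u x ∧ G.Adj v x} ≃ {x // H.Adj u' x ∧ H.Adj v' x},
    ∀ x y : {x // G.Adj u x ∧ G.Adj v x}, G.Adj (x : V) (y : V) ↔ H.Adj (f x : W) (f y : W)

lemma Com2.trans {V W X : Type} {G : SimpleGraph V} {H : SimpleGraph W} {K : SimpleGraph X}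
    {u v : V} {u' v' : W} {u'' v'' : X} (h1 : Com2 G u v H u' v') (h2 : Com2 H u' v' K u'' v'') :
    Com2 G u v K u'' v'' := by
  obtain ⟨f, hf⟩ := h1
  obtain ⟨g, hg⟩ := h2
  exact ⟨f.trans g, fun x y => (hf x y).trans (hg _ _)⟩

lemma Com2.swapRight {V W : Type} {G : SimpleGraph V} {H : SimpleGraph W}
    {u v : V} {u' v' : W} (h : Com2 G u v H u' v') : Com2 G u v H v' u' := by
  obtain ⟨f, hf⟩ := h
  exact ⟨f.trans (Equiv.subtypeEquivRight (fun x => and_comm)), fun x y => hf x y⟩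

lemma ballIso_symm {V W : Type} {G : SimpleGraph V} {v : V} {H : SimpleGraph W} {w : W}
    (h : BallIso G v H w) : BallIso H w G v := by
  obtain ⟨f, hf, hadj⟩ := h
  refine ⟨f.symm, ?_, fun x y => ?_⟩
  · have : f ⟨v, Or.inl rfl⟩ = ⟨w, Or.inl rfl⟩ := Subtype.ext hf
    rw [← this, Equiv.symm_apply_apply]
  · have := hadj (f.symm x) (f.symm y)
    rw [Equiv.apply_symm_apply, Equiv.apply_symm_apply] at this
    exact this.symm

lemma step {V W : Type} {G : SimpleGraph V} {H : SimpleGraph W} {v w : V} {v' : W}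
    (hvw : G.Adj v w) (h : BallIso G v H v') : ∃ z, H.Adj v' z ∧ Com2 G v w H v' z := by
  obtain ⟨f, hf, hadj⟩ := h
  have hf' : f ⟨v, Or.inl rfl⟩ = ⟨v', Or.inl rfl⟩ := Subtype.ext hf
  have hfs : f.symm ⟨v', Or.inl rfl⟩ = ⟨v, Or.inl rfl⟩ := by
    rw [← hf', Equiv.symm_apply_apply]
  have hz := hadj ⟨v, Or.inl rfl⟩ ⟨w, Or.inr hvw⟩
  rw [hf'] at hz
  have hz' : H.Adj v' (f ⟨w, Or.inr hvw⟩ : W) := hz.mp hvw
  refine ⟨(f ⟨w, Or.inr hvw⟩ : W), hz', ?_⟩
  have hto : ∀ x : V, (hx : G.Adj v x ∧ G.Adj w x) →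
      H.Adj v' (f ⟨x, Or.inr hx.1⟩ : W) ∧ H.Adj (f ⟨w, Or.inr hvw⟩ : W) (f ⟨x, Or.inr hx.1⟩ : W) := by
    intro x hx
    constructor
    · have := hadj ⟨v, Or.inl rfl⟩ ⟨x, Or.inr hx.1⟩
      rw [hf'] at this
      exact this.mp hx.1
    · exact (hadj ⟨w, Or.inr hvw⟩ ⟨x, Or.inr hx.1⟩).mp hx.2
  have hinv : ∀ y : W, (hy : H.Adj v' y ∧ H.Adj (f ⟨w, Or.inr hvw⟩ : W) y) →
      G.Adj v (f.symm ⟨y, Or.inr hy.1⟩ : V) ∧ G.Adj w (f.symm ⟨y, Or.inr hy.1⟩ : V) := by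
    intro y hy
    constructor
    · have := hadj ⟨v, Or.inl rfl⟩ (f.symm ⟨y, Or.inr hy.1⟩)
      rw [hf', Equiv.apply_symm_apply] at this
      exact this.mpr hy.1
    · have := hadj ⟨w, Or.inr hvw⟩ (f.symm ⟨y, Or.inr hy.1⟩)
      rw [Equiv.apply_symm_apply] at this
      exact this.mpr hy.2
  refine ⟨⟨fun x => ⟨f ⟨x.1, Or.inr x.2.1⟩, hto x.1 x.2⟩,
    fun y => ⟨f.symm ⟨y.1, Or.inr y.2.1⟩, hinv y.1 y.2⟩, fun x => ?_, fun y => ?_⟩, fun x y => ?_⟩
  · apply Subtype.ext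
    simp
  · apply Subtype.ext
    simp
  · exact hadj ⟨x.1, Or.inr x.2.1⟩ ⟨y.1, Or.inr y.2.1⟩

theorem t_REC : S_REC := by
  intro n G huniq W H φ h
  have key : ∀ v w, G.Adj v w → H.Adj (φ v) (φ w) := by
    intro v w hvw
    obtain ⟨z, hz, hc⟩ := step hvw (h v)
    obtain ⟨y, rfl⟩ := φ.surjective z
    obtain ⟨v', hv', hc'⟩ := step hz.symm (ballIso_symm (h y))
    have hcom : ComIso G v w y v' := hc.swapRight.trans hc'
    have hs := huniq v w y v' hvw hv' hcom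
    have hne : v ≠ y := by
      rintro rfl
      exact H.loopless.irrefl _ hz
    rw [Sym2.eq_iff] at hs
    rcases hs with hs | hs
    · exact absurd hs.1 hne
    · rw [hs.2]
      exact hz
  have key2 : ∀ v w, H.Adj (φ v) (φ w) → G.Adj v w := by
    intro v w hvw
    obtain ⟨f, hf, hadj⟩ := h v
    have hmem : ∀ x : ball G v, φ x ∈ ball H (φ v) := by
      rintro ⟨x, hx⟩
      rcases hx with hx | hx
      · left
        simp [hx]
      · right
        exact key v x hx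
    let g : ball G v → ball H (φ v) := fun x => ⟨φ x, hmem x⟩
    have hginj : Function.Injective g := by
      intro x y hxy
      apply Subtype.ext
      apply φ.injective
      exact congrArg Subtype.val hxy
    have hgsurj : Function.Surjective g := (Finite.injective_iff_surjective_of_equiv f).mp hginj
    obtain ⟨x, hx⟩ := hgsurj ⟨φ w, Or.inr hvw⟩
    have hxw : (x : Fin n) = w := φ.injective (congrArg Subtype.val hx)
    have hx2 := x.2
    rw [hxw] at hx2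
    rcases hx2 with hx2 | hx2
    · subst hx2
      exact absurd hvw (H.loopless.irrefl _)
    · exact hx2
  exact ⟨⟨φ, fun {v w} => ⟨key2 v w, key v w⟩⟩⟩

end Pool.Agent.K1H87.SH
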